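import Mathlib

set_option autoImplicit false

/-!
# Cycles of all even lengths in grids with an incomplete last row
-/

namespace Pool.Agent.Q229.EvC

/-- neighbours in the square grid -/
def GA (p q : ℕ × ℕ) : Prop :=
  (p.1 = q.1 ∧ (p.2 + 1 = q.2 ∨ q.2 + 1 = p.2)) ∨ (p.2 = q.2 ∧ (p.1 + 1 = q.1 ∨ q.1 + 1 = p.1))

theorem GA.symm {p q : ℕ × ℕ} (h : GA p q) : GA q p := by
  unfold GA at *
  omega

/-- a path from `a` to `b` in `X` -/
structure Pth (X : ℕ × ℕ → Prop) (L : List (ℕ × ℕ)) (a b : ℕ × ℕ) : Prop where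
  nd : L.Nodup
  ch : L.IsChain GA
  hd : L.head? = some a
  lt : L.getLast? = some b
  mem : ∀ x ∈ L, X x

theorem Pth.mono {X Y : ℕ × ℕ → Prop} {L : List (ℕ × ℕ)} {a b : ℕ × ℕ} (h : Pth X L a b)
    (hXY : ∀ x, X x → Y x) : Pth Y L a b :=
  ⟨h.nd, h.ch, h.hd, h.lt, fun x hx => hXY x (h.mem x hx)⟩

theorem Pth.single (a : ℕ × ℕ) : Pth (fun x => x = a) [a] a a :=
  ⟨by simp, by simp, by simp, by simp, by simp⟩

theorem Pth.app {X Y : ℕ × ℕ → Prop} {L M : List (ℕ × ℕ)} {a b c d : ℕ × ℕ} (h1 : Pth X L a b)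
    (h2 : Pth Y M c d) (hbc : GA b c) (hXY : ∀ x, X x → Y x → False) :
    Pth (fun x => X x ∨ Y x) (L ++ M) a d := by
  refine ⟨?_, ?_, ?_, ?_, ?_⟩
  · rw [List.nodup_append]
    refine ⟨h1.nd, h2.nd, ?_⟩
    intro x hx y hy hxy
    subst hxy
    exact hXY x (h1.mem x hx) (h2.mem x hy)
  · rw [List.isChain_append]
    refine ⟨h1.ch, h2.ch, ?_⟩
    intro x hx y hy
    rw [h1.lt] at hx
    rw [h2.hd] at hy
    have hx' : b = x := by simpa using hx
    have hy' : c = y := by simpa using hy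
    subst hx' hy'
    exact hbc
  · rw [List.head?_append, h1.hd]
    rfl
  · rw [List.getLast?_append, h2.lt]
    rfl
  · intro x hx
    rcases List.mem_append.1 hx with hx | hx
    · exact Or.inl (h1.mem x hx)
    · exact Or.inr (h2.mem x hx)

theorem Pth.rev {X : ℕ × ℕ → Prop} {L : List (ℕ × ℕ)} {a b : ℕ × ℕ} (h : Pth X L a b) :
    Pth X L.reverse b a := by
  refine ⟨List.nodup_reverse.2 h.nd, ?_, ?_, ?_, ?_⟩
  · rw [List.isChain_reverse]
    exact h.ch.imp fun x y hxy => hxy.symm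
  · rw [List.head?_reverse]
    exact h.lt
  · rw [List.getLast?_reverse]
    exact h.hd
  · intro x hx
    exact h.mem x (List.mem_reverse.1 hx)

/-- a row -/
theorem row (i : ℕ) : ∀ m, ∃ L, Pth (fun x => x.1 = i ∧ x.2 ≤ m) L (i, 0) (i, m) ∧
    L.length = m + 1 := by
  intro m
  induction m with
  | zero =>
    refine ⟨[(i, 0)], (Pth.single _).mono ?_, by simp⟩
    rintro x rfl
    exact ⟨rfl, le_rfl⟩
  | succ m ih =>
    obtain ⟨L, h1, h2⟩ := ih
    refine ⟨L ++ [(i, m + 1)], (h1.app (Pth.single (i, m + 1)) ?_ ?_).mono ?_, by simp [h2]⟩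
    · unfold GA
      simp
    · rintro x ⟨-, h3⟩ rfl
      simp at h3
    · rintro x (⟨h3, h4⟩ | rfl)
      · exact ⟨h3, by omega⟩
      · exact ⟨rfl, le_rfl⟩

/-- two columns -/
theorem strip2 (c : ℕ) : ∀ k i, ∃ L, Pth (fun x => (x.2 = c ∨ x.2 = c + 1) ∧ i ≤ x.1 ∧ x.1 ≤ i + k)
    L (i, c) (i, c + 1) ∧ L.length = 2 + 2 * k := by
  intro k
  induction k with
  | zero =>
    intro i
    refine ⟨[(i, c)] ++ [(i, c + 1)], ((Pth.single (i, c)).app (Pth.single (i, c + 1)) ?_ ?_).mono ?_,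
      by simp⟩
    · unfold GA
      simp
    · rintro x rfl h
      simp at h
    · rintro x (rfl | rfl)
      · simp
      · simp
  | succ k ih =>
    intro i
    obtain ⟨L, h1, h2⟩ := ih (i + 1)
    refine ⟨[(i, c)] ++ (L ++ [(i, c + 1)]), ((Pth.single (i, c)).app
      (h1.app (Pth.single (i, c + 1)) ?_ ?_) ?_ ?_).mono ?_, by simp [h2]; omega⟩
    · unfold GA
      simp
    · rintro x ⟨-, h3, -⟩ rfl
      simp at h3
    · unfold GA
      simp
    · rintro x rfl (⟨-, h3, -⟩ | h3)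
      · simp at h3
      · simp at h3
    · rintro x (rfl | ⟨h3, h4, h5⟩ | rfl)
      · simp
      · exact ⟨h3, by omega, by omega⟩
      · simp

/-- the cells used in three columns -/
def X3 (c i k : ℕ) (x : ℕ × ℕ) : Prop :=
  c ≤ x.2 ∧ x.2 ≤ c + 2 ∧ i ≤ x.1 ∧ (x.2 ≤ c + 1 → x.1 ≤ i + (2 * (k / 3) + k % 3)) ∧
    (x.2 = c + 2 → x.1 ≤ i + 2 * (k / 3))

theorem strip3_zero (c i : ℕ) : ∃ L, Pth (X3 c i 0) L (i, c) (i, c + 2) ∧ L.length = 3 := by
  obtain ⟨L, h1, h2⟩ := strip2 c 0 i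
  refine ⟨L ++ [(i, c + 2)], (h1.app (Pth.single (i, c + 2)) ?_ ?_).mono ?_, by simp [h2]⟩
  · unfold GA
    simp
  · rintro x ⟨h3, -⟩ rfl
    simp at h3
  · rintro x (⟨h3, h4, h5⟩ | rfl)
    · unfold X3
      omega
    · unfold X3
      simp

theorem strip3_small (c i k : ℕ) (hk : k < 3) :
    ∃ L, Pth (X3 c i k) L (i, c) (i, c + 2) ∧ L.length = 3 + 2 * k := by
  obtain ⟨L, h1, h2⟩ := strip2 c k i
  refine ⟨L ++ [(i, c + 2)], (h1.app (Pth.single (i, c + 2)) ?_ ?_).mono ?_, by simp [h2]; omega⟩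
  · unfold GA
    simp
  · rintro x ⟨h3, -⟩ rfl
    simp at h3
  · rintro x (⟨h3, h4, h5⟩ | rfl)
    · unfold X3
      omega
    · unfold X3
      simp

/-- three columns -/
theorem strip3 (c : ℕ) : ∀ k i, ∃ L, Pth (X3 c i k) L (i, c) (i, c + 2) ∧ L.length = 3 + 2 * k := by
  intro k
  induction k using Nat.strong_induction_on with
  | _ k ih =>
    intro i
    rcases Nat.lt_or_ge k 3 with hk | hk
    · exact strip3_small c i k hk
    · obtain ⟨L, h1, h2⟩ := ih (k - 3) (by omega) (i + 2)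
      have e1 : k / 3 = (k - 3) / 3 + 1 := by omega
      have e2 : k % 3 = (k - 3) % 3 := by omega
      have a1 := (Pth.single (i, c)).app (Pth.single (i, c + 1)) (by unfold GA; simp)
        (by rintro x rfl h; simp at h)
      have a2 := (Pth.single (i + 1, c + 1)).app (Pth.single (i + 1, c)) (by unfold GA; simp)
        (by rintro x rfl h; simp at h)
      have a3 := (Pth.single (i + 1, c + 2)).app (Pth.single (i, c + 2)) (by unfold GA; simp)
        (by rintro x rfl h; simp at h)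
      have a4 := a1.app a2 (by unfold GA; simp) (by
        rintro x (rfl | rfl) (h | h) <;> simp at h)
      have a5 := h1.app a3 (by unfold GA; simp) (by
        rintro x ⟨-, -, h, -⟩ (rfl | rfl) <;> simp at h)
      have a6 := a4.app a5 (by unfold GA; simp) (by
        rintro x ((rfl | rfl) | (rfl | rfl)) (⟨h3, h4, h5, -⟩ | (h | h))
        all_goals first
          | simp at h5
          | simp at h)
      refine ⟨_, a6.mono ?_, ?_⟩
      · rintro x (((rfl | rfl) | (rfl | rfl)) | (⟨h3, h4, h5, h6, h7⟩ | (rfl | rfl)))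
        · unfold X3; simp
        · unfold X3; simp
        · unfold X3
          simp only
          omega
        · unfold X3
          simp only
          omega
        · unfold X3
          omega
        · unfold X3
          simp only
          omega
        · unfold X3
          simp
      · simp [h2]
        omega

/-- the cells of rows `≥ 1` in a grid with `δ + 2` rows and a further row with `r` cells -/
def Y (m δ r : ℕ) (x : ℕ × ℕ) : Prop :=
  x.2 < m ∧ 1 ≤ x.1 ∧ (x.1 < δ + 2 ∨ (x.1 = δ + 2 ∧ x.2 < r))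

theorem pairs (δ r : ℕ) : ∀ p T, T ≤ (p + 1) * δ + min (p + 1) (r / 2) →
    ∃ L, Pth (Y (2 * p + 2) δ r) L (1, 0) (1, 2 * p + 1) ∧ L.length = 2 * p + 2 + 2 * T := by
  intro p
  induction p with
  | zero =>
    intro T hT
    obtain ⟨L, h1, h2⟩ := strip2 0 T 1
    refine ⟨L, h1.mono ?_, by omega⟩
    rintro x ⟨h3, h4, h5⟩
    unfold Y
    omega
  | succ p ih =>
    intro T hT
    have e : (p + 1 + 1) * δ = (p + 1) * δ + δ := by ring
    rw [e] at hT
    obtain ⟨L, h1, h2⟩ := ih (min T ((p + 1) * δ + min (p + 1) (r / 2))) (min_le_right _ _)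
    generalize (p + 1) * δ = P at *
    obtain ⟨M, h3, h4⟩ := strip2 (2 * p + 2) (T - min T (P + min (p + 1) (r / 2))) 1
    refine ⟨L ++ M, (h1.app h3 ?_ ?_).mono ?_, ?_⟩
    · unfold GA
      simp
    · rintro x ⟨h5, -, -⟩ ⟨h6, -, -⟩
      omega
    · rintro x (⟨h5, h6, h7⟩ | ⟨h5, h6, h7⟩)
      · unfold Y
        omega
      · unfold Y
        omega
    · rw [List.length_append, h2, h4]
      omega

/-- the upper part -/
theorem top (m δ r T : ℕ) (hm : 2 ≤ m) (hr : r < m) (hT : 2 * T ≤ m * δ + r)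
    (hne : ¬ (2 * T = m * δ + r ∧ Odd m ∧ Odd δ ∧ Odd r)) :
    ∃ L, Pth (Y m δ r) L (1, 0) (1, m - 1) ∧ L.length = m + 2 * T := by
  rcases Nat.even_or_odd m with ⟨p, hp⟩ | ⟨p, hp⟩
  · obtain ⟨p, rfl⟩ : ∃ p', p = p' + 1 := ⟨p - 1, by omega⟩
    have hm2 : m = 2 * p + 2 := by omega
    subst hm2
    have e : (2 * p + 2) * δ = 2 * ((p + 1) * δ) := by ring
    rw [e] at hT
    obtain ⟨L, h1, h2⟩ := pairs δ r p T (by omega)
    refine ⟨L, ?_, h2⟩
    have : 2 * p + 2 - 1 = 2 * p + 1 := by omega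
    rw [this]
    exact h1
  · have hnotodd : ¬ (Odd δ ∧ Odd r) ∨ 2 * T + 2 ≤ m * δ + r := by
      by_cases h : Odd δ ∧ Odd r
      · right
        have h1 : 2 * T ≠ m * δ + r := fun h2 => hne ⟨h2, ⟨p, hp⟩, h⟩
        have h2 : Even (m * δ + r) := by
          have : Odd (m * δ) := Odd.mul ⟨p, hp⟩ h.1
          exact this.add_odd h.2
        obtain ⟨w, hw⟩ := h2
        omega
      · exact Or.inl h
    obtain ⟨p, rfl⟩ : ∃ p', p = p' + 1 := ⟨p - 1, by omega⟩
    have hm2 : m = 2 * p + 3 := by omega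
    subst hm2
    have e : (2 * p + 3) * δ = 2 * (p * δ) + 3 * δ := by ring
    rw [e] at hT hnotodd
    have hkey : T ≤ p * δ + min p (r / 2) + (3 * δ / 2 + if r = 2 * p + 2 then 1 else 0) := by
      rcases hnotodd with h | h
      · rcases Nat.even_or_odd δ with ⟨u, hu⟩ | hδ
        · split_ifs <;> omega
        · rcases Nat.even_or_odd r with ⟨w, hw⟩ | hr'
          · obtain ⟨u, hu⟩ := hδ
            split_ifs <;> omega
          · exact absurd ⟨hδ, hr'⟩ h
      · split_ifs <;> omega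
    clear hT hnotodd hne e
    have hcase : ∀ k, k ≤ 3 * δ / 2 + (if r = 2 * p + 2 then 1 else 0) →
        ∀ x, X3 (2 * p) 1 k x → Y (2 * p + 3) δ r x := by
      intro k hk x hx
      unfold X3 at hx
      unfold Y
      split_ifs at hk <;> omega
    have hlast : 2 * p + 3 - 1 = 2 * p + 2 := by omega
    rw [hlast]
    rcases Nat.eq_zero_or_pos p with rfl | hp0
    · obtain ⟨L, h1, h2⟩ := strip3 (2 * 0) T 1
      refine ⟨L, ?_, by omega⟩
      exact h1.mono (hcase T (by simpa using hkey))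
    · obtain ⟨q, rfl⟩ : ∃ q, p = q + 1 := ⟨p - 1, by omega⟩
      generalize hP : (q + 1) * δ = P at *
      obtain ⟨L, h1, h2⟩ := pairs δ r q (min T (P + min (q + 1) (r / 2))) (by
        rw [hP]
        exact min_le_right _ _)
      obtain ⟨M, h3, h4⟩ := strip3 (2 * (q + 1)) (T - min T (P + min (q + 1) (r / 2))) 1
      refine ⟨L ++ M, (h1.app h3 ?_ ?_).mono ?_, ?_⟩
      · refine Or.inl ⟨rfl, Or.inl ?_⟩
        change 2 * q + 1 + 1 = 2 * (q + 1)
        ring
      · rintro x ⟨h5, -, -⟩ ⟨h6, -⟩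
        omega
      · rintro x (h5 | h5)
        · unfold Y at h5 ⊢
          omega
        · refine hcase _ ?_ x h5
          generalize (if r = 2 * (q + 1) + 2 then 1 else 0) = v at hkey ⊢
          generalize min (q + 1) (r / 2) = u at hkey ⊢
          omega
      · rw [List.length_append, h2, h4]
        have h8 := min_le_left T (P + min (q + 1) (r / 2))
        generalize min T (P + min (q + 1) (r / 2)) = t at h8 ⊢
        omega

/-- the cells of a grid with `j` rows of `m` cells and a further row with `r` cells -/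
def W (m j r : ℕ) (x : ℕ × ℕ) : Prop := x.2 < m ∧ (x.1 < j ∨ (x.1 = j ∧ x.2 < r))

/-- cycles of all even lengths -/
theorem grid_cycle (m j r : ℕ) (hm : 2 ≤ m) (hj : 2 ≤ j) (hr : r < m) (l : ℕ) (hev : Even l)
    (h4 : 4 ≤ l) (hle : l ≤ m * j + r) (hne : ¬ (l = m * j + r ∧ Odd m ∧ Odd j ∧ Odd r)) :
    ∃ L a b, Pth (W m j r) L a b ∧ GA b a ∧ L.length = l := by
  obtain ⟨δ, rfl⟩ : ∃ δ, j = δ + 2 := ⟨j - 2, by omega⟩
  have hup : ∃ m' L, 2 ≤ m' ∧ m' ≤ m ∧ Pth (Y m δ r) L (1, 0) (1, m' - 1) ∧ L.length + m' = l := by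
    rcases Nat.lt_or_ge l (2 * m) with h | h
    · obtain ⟨w, hw⟩ := hev
      obtain ⟨L, h1, h2⟩ := row 1 (w - 1)
      refine ⟨w, L, by omega, by omega, h1.mono ?_, by omega⟩
      rintro x ⟨h3, h5⟩
      unfold Y
      omega
    · obtain ⟨w, hw⟩ := hev
      have e : m * (δ + 2) = m * δ + 2 * m := by ring
      rw [e] at hle hne
      obtain ⟨L, h1, h2⟩ := top m δ r (w - m) hm hr (by omega) (by
        rintro ⟨h5, h6, h7, h8⟩
        refine hne ⟨by omega, h6, ?_, h8⟩
        exact h7.add_even (by decide))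
      exact ⟨m, L, hm, le_rfl, h1, by omega⟩
  obtain ⟨m', L, h1, h2, h3, h5⟩ := hup
  obtain ⟨M, h6, h7⟩ := row 0 (m' - 1)
  refine ⟨L ++ M.reverse, (1, 0), (0, 0), (h3.app h6.rev ?_ ?_).mono ?_, ?_, ?_⟩
  · unfold GA
    simp
  · rintro x ⟨-, h8, -⟩ ⟨h9, -⟩
    omega
  · rintro x (h8 | ⟨h8, h9⟩)
    · unfold Y at h8
      unfold W
      omega
    · unfold W
      omega
  · unfold GA
    simp
  · rw [List.length_append, List.length_reverse, h7]
    omega

end Pool.Agent.Q229.EvC
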