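import Pool.Agent.Q6.KV.Final
import Pool.Agent.Q6.KV.Fac2
import Pool.Agent.Q229.EvC.Grid

set_option autoImplicit false
set_option linter.unusedSectionVars false

/-!
# Even cycles in Cayley graphs of finite abelian groups

A Cayley graph of a finite abelian group with at least two pairs `{a, -a}` in its connection set
contains cycles of all even lengths from 4 to the order of its components.
-/

namespace Pool.Agent.Q229.EvC

open Finset
open Pool.Agent.W332.Kd (cay Sy cay_adj Rp pr mem_pr mem_Rp pr_sy pr_disj cover_pr part_pr cay_mono)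
open Pool.Agent.Q6.KV

theorem contained_of_fun {V : Type} (G : SimpleGraph V) (t : ℕ) (ht : 1 ≤ t) (f : ℕ → V)
    (hinj : ∀ i j, i < t → j < t → f i = f j → i = j)
    (hadj : ∀ i, i + 1 < t → G.Adj (f i) (f (i + 1))) (hcl : G.Adj (f (t - 1)) (f 0)) :
    (SimpleGraph.cycleGraph t).IsContained G := by
  refine ⟨⟨⟨fun i => f i.val, ?_⟩, ?_⟩⟩
  · have key : ∀ u v : Fin t, (v - u).val = 1 → G.Adj (f u.val) (f v.val) := by
      intro u v h
      have hu := u.2
      have hv := v.2
      rw [Fin.sub_def] at h
      simp only at h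
      rcases Nat.lt_or_ge (t - u.val + v.val) t with h1 | h1
      · rw [Nat.mod_eq_of_lt h1] at h
        have h2 : v.val = 0 := by omega
        have h3 : u.val = t - 1 := by omega
        rw [h2, h3]
        exact hcl
      · rw [Nat.mod_eq_sub_mod h1] at h
        rcases Nat.lt_or_ge (t - u.val + v.val - t) t with h2 | h2
        · rw [Nat.mod_eq_of_lt h2] at h
          have h3 : v.val = u.val + 1 := by omega
          rw [h3]
          exact hadj _ (by omega)
        · omega
    intro u v h
    rw [SimpleGraph.cycleGraph_adj'] at h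
    rcases h with h | h
    · exact (key v u h).symm
    · exact key u v h
  · intro u v h
    exact Fin.ext (hinj _ _ u.2 v.2 h)

theorem contained_of_pth {V : Type} (G : SimpleGraph V) {X : ℕ × ℕ → Prop} {L : List (ℕ × ℕ)}
    {a b : ℕ × ℕ} (h : Pth X L a b) (hcl : GA b a) (v : ℕ × ℕ → V)
    (hinj : ∀ x y, X x → X y → v x = v y → x = y)
    (hadj : ∀ x y, X x → X y → GA x y → G.Adj (v x) (v y)) :
    (SimpleGraph.cycleGraph L.length).IsContained G := by
  have hne : L ≠ [] := by
    rintro rfl
    have := h.hd
    simp at this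
  have hlen : 1 ≤ L.length := List.length_pos_of_ne_nil hne
  have hget : ∀ i, (hi : i < L.length) → X L[i] := fun i hi => h.mem _ (List.getElem_mem hi)
  refine contained_of_fun G L.length hlen (fun i => v (L.getD i a)) ?_ ?_ ?_
  · intro i j hi hj hij
    simp only [List.getD_eq_getElem _ _ hi, List.getD_eq_getElem _ _ hj] at hij
    exact (List.Nodup.getElem_inj_iff h.nd).1 (hinj _ _ (hget i hi) (hget j hj) hij)
  · intro i hi
    simp only [List.getD_eq_getElem _ _ hi, List.getD_eq_getElem _ _ (Nat.lt_of_succ_lt hi)]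
    have h2 := h.ch
    rw [List.isChain_iff_getElem] at h2
    exact hadj _ _ (hget _ _) (hget _ _) (h2 i hi)
  · have e1 : L.getD (L.length - 1) a = b := by
      have h4 := h.lt
      rw [List.getD_eq_getElem _ _ (by omega)]
      rw [List.getLast?_eq_getElem?, List.getElem?_eq_getElem (by omega)] at h4
      simpa using h4
    have e2 : L.getD 0 a = a := by
      have h3 := h.hd
      rw [List.getD_eq_getElem _ _ (by omega)]
      rw [List.head?_eq_getElem?, List.getElem?_eq_getElem (by omega)] at h3
      simpa using h3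
    have hb : X b := by
      rw [← e1, List.getD_eq_getElem _ _ (by omega)]
      exact hget _ _
    have ha : X a := by
      rw [← e2, List.getD_eq_getElem _ _ (by omega)]
      exact hget _ _
    simp only [e1, e2]
    exact hadj _ _ hb ha hcl

section

variable {A : Type} [AddCommGroup A] [Fintype A] [DecidableEq A]

theorem SI_mono {I J : Finset (Rp A)} (h : I ⊆ J) : SI I ⊆ SI J := by
  intro x hx
  obtain ⟨j, hj, hx⟩ := mem_SI.1 hx
  exact mem_SI.2 ⟨j, h hj, hx⟩

theorem adj_of_sub {I : Finset (Rp A)} {u v : A} (h : v - u ∈ SI I ∨ u - v ∈ SI I) :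
    (cay (SI I)).Adj u v := by
  rw [cay_adj (SI_sy I)]
  rcases h with h | h
  · exact h
  · have := (SI_sy I).neg _ h
    rwa [neg_sub] at this

open Classical in
/-- a generator outside the subgroup generated by the others -/
theorem caseA (I : Finset (Rp A)) (j : Rp A) (hj : j ∈ I) (hne : (I.erase j).Nonempty)
    (hgn : gn (I.erase j) ≠ gn I) (l : ℕ) (hev : Even l) (h4 : 4 ≤ l) (hl : l ≤ Nat.card (gn I)) :
    (SimpleGraph.cycleGraph l).IsContained (cay (SI I)) := by
  set H := gn (I.erase j) with hH
  obtain ⟨L, hnd, -, hmem, hch⟩ := Pool.Agent.TH669.KP.ham_closure (SI (I.erase j))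
  have hmem' : ∀ x, x ∈ L ↔ x ∈ H := hmem
  have hxH : j.1 ∉ H := by
    intro hx
    apply hgn
    apply le_antisymm
    · rw [gn_le]
      intro i hi
      exact AddSubgroup.subset_closure (mem_coe.2 (mem_SI.2 ⟨i, mem_of_mem_erase hi, self_mem_pr _⟩))
    · rw [gn_le]
      intro i hi
      by_cases hij : i = j
      · rw [hij]
        exact hx
      · exact AddSubgroup.subset_closure (mem_coe.2 (mem_SI.2 ⟨i, mem_erase.2 ⟨hij, hi⟩,
          self_mem_pr _⟩))
  have hex : ∃ t : ℕ, 0 < t ∧ t • j.1 ∈ H :=
    ⟨addOrderOf j.1, addOrderOf_pos _, by rw [addOrderOf_nsmul_eq_zero]; exact H.zero_mem⟩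
  set t := Nat.find hex with ht
  obtain ⟨ht0, ht1⟩ := Nat.find_spec hex
  rw [← ht] at ht0 ht1
  have ht2 : ∀ i, 0 < i → i < t → i • j.1 ∉ H := by
    intro i hi hit hmem
    exact Nat.find_min hex hit ⟨hi, hmem⟩
  have ht3 : 2 ≤ t := by
    by_contra hcon
    have : t = 1 := by omega
    rw [this, one_nsmul] at ht1
    exact hxH ht1
  have hm : 2 ≤ L.length := by
    obtain ⟨i, hi⟩ := hne
    have h1 : i.1 ∈ L := (hmem' _).2
      (AddSubgroup.subset_closure (mem_coe.2 (mem_SI.2 ⟨i, hi, self_mem_pr _⟩)))
    have h2 : (0 : A) ∈ L := (hmem' _).2 H.zero_mem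
    have h3 : i.1 ≠ 0 := ((mem_Rp _).1 i.2).1
    by_contra hcon
    rcases (by omega : L.length = 0 ∨ L.length = 1) with h5 | h5
    · rw [List.length_eq_zero_iff] at h5
      rw [h5] at h1
      exact absurd h1 (List.not_mem_nil)
    · rw [List.length_eq_one_iff] at h5
      obtain ⟨y, rfl⟩ := h5
      rw [List.mem_singleton] at h1 h2
      exact h3 (by rw [h1, h2])
  set m := L.length with hmdef
  let v : ℕ × ℕ → A := fun x => L.getD x.2 0 + x.1 • j.1
  have hvL : ∀ c, c < m → L.getD c 0 ∈ H := by
    intro c hc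
    rw [List.getD_eq_getElem _ _ hc, ← hmem']
    exact List.getElem_mem hc
  -- the cosets cover everything
  have hcov : ∀ x ∈ gn I, ∃ y : ℕ × ℕ, y.2 < m ∧ y.1 < t ∧ v y = x := by
    let K : AddSubgroup A :=
      { carrier := {x | ∃ z : ℤ, x - z • j.1 ∈ H}
        zero_mem' := ⟨0, by simpa using H.zero_mem⟩
        add_mem' := by
          rintro x y ⟨z, hz⟩ ⟨w, hw⟩
          refine ⟨z + w, ?_⟩
          have : x + y - (z + w) • j.1 = (x - z • j.1) + (y - w • j.1) := by
            rw [add_smul]
            abel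
          rw [this]
          exact H.add_mem hz hw
        neg_mem' := by
          rintro x ⟨z, hz⟩
          refine ⟨-z, ?_⟩
          have : -x - (-z) • j.1 = -(x - z • j.1) := by
            rw [neg_smul]
            abel
          rw [this]
          exact H.neg_mem hz }
    have hK : gn I ≤ K := by
      rw [gn_le]
      intro i hi
      by_cases hij : i = j
      · subst hij
        exact ⟨1, by simpa using H.zero_mem⟩
      · exact ⟨0, by
          rw [zero_smul, sub_zero]
          exact AddSubgroup.subset_closure (mem_coe.2 (mem_SI.2 ⟨i, mem_erase.2 ⟨hij, hi⟩,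
            self_mem_pr _⟩))⟩
    intro x hx
    obtain ⟨z, hz⟩ := hK hx
    have hr0 : 0 ≤ z % (t : ℤ) := Int.emod_nonneg _ (by omega)
    have hr1 : z % (t : ℤ) < t := Int.emod_lt_of_pos _ (by omega)
    obtain ⟨r, hr⟩ := Int.eq_ofNat_of_zero_le hr0
    have hxr : x - r • j.1 ∈ H := by
      have e : x - r • j.1 = (x - z • j.1) + (z / (t : ℤ)) • (t • j.1) := by
        have e1 : z = (t : ℤ) * (z / t) + z % t := (Int.mul_ediv_add_emod z t).symm
        have e2 : z • j.1 = (z / (t : ℤ)) • (t • j.1) + r • j.1 := by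
          conv_lhs => rw [e1, hr]
          rw [add_smul, mul_comm, mul_smul, natCast_zsmul, natCast_zsmul]
        rw [e2]
        abel
      rw [e]
      exact H.add_mem hz (H.zsmul_mem ht1 _)
    obtain ⟨c, hc, hcx⟩ := List.mem_iff_getElem.1 ((hmem' _).2 hxr)
    refine ⟨(r, c), hc, by omega, ?_⟩
    change L.getD c 0 + r • j.1 = x
    rw [List.getD_eq_getElem _ _ hc, hcx, sub_add_cancel]
  have hcard : Nat.card (gn I) ≤ m * t := by
    rw [← hf_card]
    have h1 : hf (gn I) ⊆ ((range t) ×ˢ (range m)).image v := by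
      intro x hx
      obtain ⟨y, h2, h3, h5⟩ := hcov x (mem_hf.1 hx)
      exact mem_image.2 ⟨y, mem_product.2 ⟨mem_range.2 h3, mem_range.2 h2⟩, h5⟩
    refine (card_le_card h1).trans (card_image_le.trans ?_)
    rw [card_product, card_range, card_range, mul_comm]
  obtain ⟨M, a, b, h1, h2, h3⟩ := grid_cycle m t 0 hm ht3 (by omega) l hev h4 (by omega)
    (by rintro ⟨-, -, -, h⟩; exact absurd h (by decide))
  rw [← h3]
  have hrow : ∀ c, c + 1 < m → (cay (SI I)).Adj (L.getD c 0) (L.getD (c + 1) 0) := by
    intro c hc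
    rw [List.isChain_iff_getElem] at hch
    have h5 := hch c hc
    rw [List.getD_eq_getElem _ _ (Nat.lt_of_succ_lt hc), List.getD_eq_getElem _ _ hc]
    apply adj_of_sub
    rcases h5 with h5 | h5
    · exact Or.inl (SI_mono (erase_subset _ _) (mem_coe.1 h5))
    · exact Or.inr (SI_mono (erase_subset _ _) (mem_coe.1 h5))
  have htr : ∀ x y z : A, (cay (SI I)).Adj x y → (cay (SI I)).Adj (x + z) (y + z) := by
    intro x y z h
    rw [cay_adj (SI_sy I)] at h ⊢
    rwa [add_sub_add_right_eq_sub]
  have hcol : ∀ (c i : ℕ), (cay (SI I)).Adj (L.getD c 0 + i • j.1) (L.getD c 0 + (i + 1) • j.1) := by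
    intro c i
    apply adj_of_sub
    left
    have : L.getD c 0 + (i + 1) • j.1 - (L.getD c 0 + i • j.1) = j.1 := by
      rw [succ_nsmul]
      abel
    rw [this]
    exact mem_SI.2 ⟨j, hj, self_mem_pr _⟩
  refine contained_of_pth (cay (SI I)) h1 h2 v ?_ ?_
  · rintro ⟨i, c⟩ ⟨i', c'⟩ hx hy hxy
    unfold W at hx hy
    simp only at hx hy
    have hxy' : L.getD c 0 + i • j.1 = L.getD c' 0 + i' • j.1 := hxy
    have hii : i = i' := by
      by_contra hcon
      rcases Nat.lt_or_gt_of_ne hcon with h5 | h5
      · refine ht2 (i' - i) (by omega) (by omega) ?_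
        have h6 : (i' - i) • j.1 = L.getD c 0 - L.getD c' 0 := by
          have h7 : i' • j.1 = (i' - i) • j.1 + i • j.1 := by
            rw [← add_nsmul]
            congr 1
            omega
          rw [h7] at hxy'
          rw [eq_sub_iff_add_eq]
          have h8 : L.getD c 0 + i • j.1 = ((i' - i) • j.1 + L.getD c' 0) + i • j.1 := by
            rw [hxy']
            abel
          exact (add_right_cancel h8).symm
        rw [h6]
        exact H.sub_mem (hvL c hx.1) (hvL c' hy.1)
      · refine ht2 (i - i') (by omega) (by omega) ?_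
        have h6 : (i - i') • j.1 = L.getD c' 0 - L.getD c 0 := by
          have h7 : i • j.1 = (i - i') • j.1 + i' • j.1 := by
            rw [← add_nsmul]
            congr 1
            omega
          rw [h7] at hxy'
          rw [eq_sub_iff_add_eq]
          have h8 : ((i - i') • j.1 + L.getD c 0) + i' • j.1 = L.getD c' 0 + i' • j.1 := by
            rw [← hxy']
            abel
          exact add_right_cancel h8
        rw [h6]
        exact H.sub_mem (hvL c' hy.1) (hvL c hx.1)
    subst hii
    have h5 := add_right_cancel hxy'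
    rw [List.getD_eq_getElem _ _ hx.1, List.getD_eq_getElem _ _ hy.1] at h5
    rw [(List.Nodup.getElem_inj_iff hnd).1 h5]
  · rintro ⟨i, c⟩ ⟨i', c'⟩ hx hy hxy
    unfold W at hx hy
    unfold GA at hxy
    simp only at hx hy hxy
    change (cay (SI I)).Adj (L.getD c 0 + i • j.1) (L.getD c' 0 + i' • j.1)
    rcases hxy with ⟨rfl, rfl | rfl⟩ | ⟨rfl, rfl | rfl⟩
    · exact htr _ _ _ (hrow c hy.1)
    · exact htr _ _ _ (hrow c' hx.1).symm
    · exact hcol _ _
    · exact (hcol _ _).symm

theorem gn_single (j : Rp A) : gn ({j} : Finset (Rp A)) = AddSubgroup.zmultiples j.1 := by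
  apply le_antisymm
  · rw [gn_le]
    intro i hi
    rw [mem_singleton] at hi
    rw [hi]
    exact AddSubgroup.mem_zmultiples _
  · exact AddSubgroup.zmultiples_le_of_mem
      (AddSubgroup.subset_closure (mem_coe.2 (mem_SI.2 ⟨j, mem_singleton_self j, self_mem_pr _⟩)))

/-- two generators each of which generates everything -/
theorem caseB (i j : Rp A) (hij : i ≠ j) (h : gn ({i} : Finset (Rp A)) = gn {j}) (l : ℕ)
    (hev : Even l) (h4 : 4 ≤ l) (hl : l ≤ Nat.card (gn ({i} : Finset (Rp A)))) :
    (SimpleGraph.cycleGraph l).IsContained (cay (SI {i, j})) := by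
  set a := i.1 with ha
  rw [gn_single, Nat.card_zmultiples, ← ha] at hl
  rw [gn_single, gn_single, ← ha] at h
  set d := addOrderOf a with hd
  have hja : j.1 ∈ AddSubgroup.zmultiples a := by
    rw [h]
    exact AddSubgroup.mem_zmultiples _
  have hpos : 0 < d := addOrderOf_pos a
  have hinj : ∀ x y : ℕ, x < d → y < d → x • a = y • a → x = y := by
    intro x y hx hy hxy
    exact (nsmul_injOn_Iio_addOrderOf (x := a)) (Set.mem_Iio.2 hx) (Set.mem_Iio.2 hy) hxy
  -- the second generator is a small multiple of the first one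
  obtain ⟨t, ht0, ht1, ht2⟩ : ∃ t : ℕ, 2 ≤ t ∧ 2 * t ≤ d ∧ t • a ∈ pr j.1 := by
    obtain ⟨t, ht, htj⟩ : ∃ t : ℕ, t < d ∧ t • a = j.1 := by
      obtain ⟨z, hz⟩ := AddSubgroup.mem_zmultiples_iff.1 hja
      have h5 := mem_multiples_iff_mem_range_addOrderOf (x := a) (y := j.1)
      rw [mem_multiples_iff_mem_zmultiples] at h5
      have h6 := h5.1 hja
      rw [mem_image] at h6
      obtain ⟨t, ht, h7⟩ := h6
      exact ⟨t, mem_range.1 ht, h7⟩
    have hj0 : j.1 ≠ 0 := ((mem_Rp _).1 j.2).1
    have hne1 : j.1 ∉ pr a := by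
      intro h5
      exact Finset.disjoint_left.1 (part_pr.disj i j hij) h5 (self_mem_pr _)
    have hneg : (d - t) • a = -j.1 := by
      rw [eq_neg_iff_add_eq_zero, ← htj, ← add_nsmul]
      have : d - t + t = d := by omega
      rw [this]
      exact addOrderOf_nsmul_eq_zero a
    have ht00 : t ≠ 0 := by
      rintro rfl
      rw [zero_nsmul] at htj
      exact hj0 htj.symm
    have ht11 : t ≠ 1 := by
      rintro rfl
      rw [one_nsmul] at htj
      exact hne1 (by rw [← htj]; exact self_mem_pr _)
    have ht22 : d - t ≠ 1 := by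
      intro h5
      rw [h5, one_nsmul] at hneg
      apply hne1
      rw [mem_pr]
      right
      rw [hneg, neg_neg]
    rcases Nat.le_total (2 * t) d with h5 | h5
    · exact ⟨t, by omega, h5, by rw [htj]; exact self_mem_pr _⟩
    · exact ⟨d - t, by omega, by omega, by rw [hneg]; exact (mem_pr _ _).2 (Or.inr rfl)⟩
  have hma : a ∈ SI ({i, j} : Finset (Rp A)) :=
    mem_SI.2 ⟨i, by simp, self_mem_pr _⟩
  have hmt : t • a ∈ SI ({i, j} : Finset (Rp A)) :=
    mem_SI.2 ⟨j, by simp, ht2⟩
  have hstep1 : ∀ x : ℕ, (cay (SI ({i, j} : Finset (Rp A)))).Adj (x • a) ((x + 1) • a) := by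
    intro x
    apply adj_of_sub
    left
    rw [succ_nsmul, add_sub_cancel_left]
    exact hma
  have hstept : ∀ x : ℕ, (cay (SI ({i, j} : Finset (Rp A)))).Adj (x • a) ((x + t) • a) := by
    intro x
    apply adj_of_sub
    left
    rw [add_nsmul, add_sub_cancel_left]
    exact hmt
  by_cases hfull : l = d
  · subst hfull
    refine contained_of_fun _ d (by omega) (fun x => x • a) ?_ ?_ ?_
    · intro x y hx hy hxy
      exact hinj x y hx hy hxy
    · intro x _
      exact hstep1 x
    · have h5 := hstep1 (d - 1)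
      have h6 : d - 1 + 1 = d := by omega
      rw [h6, addOrderOf_nsmul_eq_zero] at h5
      change (cay (SI ({i, j} : Finset (Rp A)))).Adj ((d - 1) • a) (0 • a)
      rw [zero_nsmul]
      exact h5
  · have hdiv : t * (d / t) + d % t = d := Nat.div_add_mod d t
    have hmod : d % t < t := Nat.mod_lt _ (by omega)
    have hq : 2 ≤ d / t := by
      rw [Nat.le_div_iff_mul_le (by omega)]
      exact ht1
    obtain ⟨M, b, c, h1, h2, h3⟩ := grid_cycle t (d / t) (d % t) ht0 hq hmod l hev h4
      (by omega) (by rintro ⟨h5, -⟩; omega)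
    rw [← h3]
    have hlt : ∀ x : ℕ × ℕ, W t (d / t) (d % t) x → x.1 * t + x.2 < d := by
      rintro ⟨p, q⟩ hx
      unfold W at hx
      simp only at hx ⊢
      rcases hx.2 with h5 | ⟨h5, h6⟩
      · have h7 : (p + 1) * t ≤ (d / t) * t := Nat.mul_le_mul_right t h5
        have h8 : (p + 1) * t = p * t + t := by ring
        have h9 : (d / t) * t = t * (d / t) := by ring
        omega
      · subst h5
        have h9 : (d / t) * t = t * (d / t) := by ring
        omega
    refine contained_of_pth _ h1 h2 (fun x => (x.1 * t + x.2) • a) ?_ ?_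
    · rintro ⟨p, q⟩ ⟨p', q'⟩ hx hy hxy
      have h5 := hinj _ _ (hlt _ hx) (hlt _ hy) hxy
      simp only at h5
      have hq1 : q < t := hx.1
      have hq2 : q' < t := hy.1
      have h6 : p = p' := by
        have e1 : (p * t + q) / t = p := by
          rw [mul_comm, Nat.mul_add_div (by omega), Nat.div_eq_of_lt hq1, add_zero]
        have e2 : (p' * t + q') / t = p' := by
          rw [mul_comm, Nat.mul_add_div (by omega), Nat.div_eq_of_lt hq2, add_zero]
        rw [← e1, ← e2, h5]
      subst h6
      have : q = q' := by omega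
      rw [this]
    · rintro ⟨p, q⟩ ⟨p', q'⟩ hx hy hxy
      unfold GA at hxy
      simp only at hxy
      change (cay (SI ({i, j} : Finset (Rp A)))).Adj ((p * t + q) • a) ((p' * t + q') • a)
      rcases hxy with ⟨rfl, rfl | rfl⟩ | ⟨rfl, rfl | rfl⟩
      · exact hstep1 _
      · exact (hstep1 _).symm
      · have h5 := hstept (p * t + q)
        have h6 : p * t + q + t = (p + 1) * t + q := by ring
        rwa [h6] at h5
      · have h5 := hstept (p' * t + q)
        have h6 : p' * t + q + t = (p' + 1) * t + q := by ring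
        rw [h6] at h5
        exact h5.symm

/-- **Cycles of all even lengths.** -/
theorem even_cycles : ∀ (k : ℕ) (I : Finset (Rp A)), I.card = k → 2 ≤ k → ∀ l : ℕ, Even l →
    4 ≤ l → l ≤ Nat.card (gn I) → (SimpleGraph.cycleGraph l).IsContained (cay (SI I)) := by
  intro k
  induction k with
  | zero =>
    intro I _ h2
    omega
  | succ k ih =>
    intro I hI h2 l hev h4 hl
    by_cases hA : ∃ j ∈ I, gn (I.erase j) ≠ gn I
    · obtain ⟨j, hj, hgn⟩ := hA
      have hne : (I.erase j).Nonempty := by
        rw [← card_pos, card_erase_of_mem hj]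
        omega
      exact caseA I j hj hne hgn l hev h4 hl
    · push Not at hA
      rcases Nat.lt_or_ge k 2 with hk | hk
      · have hk1 : I.card = 2 := by omega
        obtain ⟨i, j, hij, rfl⟩ := card_eq_two.1 hk1
        have h5 := hA i (by simp)
        have h6 := hA j (by simp)
        have e1 : ({i, j} : Finset (Rp A)).erase i = {j} := by
          ext x
          simp only [mem_erase, mem_insert, mem_singleton]
          constructor
          · rintro ⟨h7, h8 | h8⟩
            · exact absurd h8 h7
            · exact h8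
          · rintro rfl
            exact ⟨hij.symm, Or.inr rfl⟩
        have e2 : ({i, j} : Finset (Rp A)).erase j = {i} := by
          ext x
          simp only [mem_erase, mem_insert, mem_singleton]
          constructor
          · rintro ⟨h7, h8 | h8⟩
            · exact h8
            · exact absurd h8 h7
          · rintro rfl
            exact ⟨hij, Or.inl rfl⟩
        rw [e1] at h5
        rw [e2] at h6
        exact caseB i j hij (h6.trans h5.symm) l hev h4 (by rw [h6]; exact hl)
      · have hne : I.Nonempty := by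
          rw [← card_pos]
          omega
        obtain ⟨j, hj⟩ := hne
        have h5 := ih (I.erase j) (by rw [card_erase_of_mem hj]; omega) hk l hev h4
          (by rw [hA j hj]; exact hl)
        exact h5.mono_right (cay_mono (SI_mono (erase_subset _ _)))

end

end Pool.Agent.Q229.EvC
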