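import Pool.Agent.Q229.EvC.Sum

set_option autoImplicit false
set_option linter.unusedSectionVars false

/-!
# Even cycles: the main theorem in terms of decision trees
-/

namespace Pool.Agent.Q229.EvC

open Finset
open Pool.Agent.W332.Kd (cay Sy cay_adj Rp pr mem_pr mem_Rp pr_sy pr_disj cover_pr part_pr cay_mono
  VT cay_VT)
open Pool.Agent.H119R2.Kp (PV GP)
open Pool.Agent.H119R2.Kp.RelAux (PV_iff PV_mono)
open Pool.Agent.Q6.KV

section

variable {A : Type} [AddCommGroup A] [Fintype A] [DecidableEq A]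

theorem reach_tr (I : Finset (Rp A)) (x y z : A) :
    (cay (SI I)).Reachable (x + z) (y + z) ↔ (cay (SI I)).Reachable x y := by
  let φ : cay (SI I) ≃g cay (SI I) := ⟨Equiv.addRight z, by
    intro a b
    rw [cay_adj (SI_sy I), cay_adj (SI_sy I)]
    simp⟩
  exact φ.reachable_iff (u := x) (v := y)

theorem reach_card (I : Finset (Rp A)) (v : A) :
    {w | (cay (SI I)).Reachable v w}.ncard = Nat.card (gn I) := by
  have h1 : {w | (cay (SI I)).Reachable v w} = (fun x => x + v) '' (gn I : Set A) := by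
    ext w
    rw [Set.mem_image]
    constructor
    · intro h
      refine ⟨w - v, ?_, sub_add_cancel _ _⟩
      rw [SetLike.mem_coe, ← reach_iff, ← reach_tr I 0 (w - v) v, zero_add, sub_add_cancel]
      exact h
    · rintro ⟨x, hx, rfl⟩
      rw [SetLike.mem_coe, ← reach_iff, ← reach_tr I 0 x v, zero_add] at hx
      exact hx
  rw [h1, Set.ncard_image_of_injective _ (add_left_injective v)]
  exact (Nat.card_coe_set_eq (gn I : Set A)).symm

theorem reach_iso {V W : Type} {G : SimpleGraph V} {G' : SimpleGraph W} (φ : G ≃g G') (v : V) :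
    {w | G'.Reachable (φ v) w}.ncard = {w | G.Reachable v w}.ncard := by
  have h2 : {w | G'.Reachable (φ v) w} = φ '' {w | G.Reachable v w} := by
    ext w
    rw [Set.mem_image]
    constructor
    · intro h
      refine ⟨φ.symm w, ?_, φ.apply_symm_apply w⟩
      have h3 : G'.Reachable (φ v) (φ (φ.symm w)) := by
        rw [φ.apply_symm_apply]
        exact h
      exact (φ.reachable_iff).1 h3
    · rintro ⟨x, hx, rfl⟩
      exact (φ.reachable_iff).2 hx
  rw [h2, Set.ncard_image_of_injective _ φ.injective]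

end

/-- one pair of generators: a cycle of length `n` -/
theorem cyc_le {n : ℕ} [NeZero n] (hn : 4 ≤ n) (j : Rp (ZMod n))
    (hj : gn ({j} : Finset (Rp (ZMod n))) = ⊤) :
    ∃ e : ZMod n ≃ Fin n, (cay (SI {j})).map e.toEmbedding ≤ SimpleGraph.cycleGraph n := by
  have hcard : Fintype.card (ZMod n) = n := ZMod.card n
  have hord : addOrderOf j.1 = n := by
    rw [gn_single] at hj
    have h1 : Nat.card (AddSubgroup.zmultiples j.1) = Nat.card (⊤ : AddSubgroup (ZMod n)) := by
      rw [hj]
    rw [Nat.card_zmultiples, AddSubgroup.card_top, Nat.card_eq_fintype_card, hcard] at h1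
    exact h1
  have hinj : Function.Injective (fun i : Fin n => i.val • j.1) := by
    intro x y hxy
    apply Fin.ext
    have hx := x.2
    have hy := y.2
    exact (nsmul_injOn_Iio_addOrderOf (x := j.1)) (Set.mem_Iio.2 (by rw [hord]; exact hx))
      (Set.mem_Iio.2 (by rw [hord]; exact hy)) hxy
  have hbij : Function.Bijective (fun i : Fin n => i.val • j.1) := by
    rw [Fintype.bijective_iff_injective_and_card]
    exact ⟨hinj, by rw [hcard, Fintype.card_fin]⟩
  refine ⟨(Equiv.ofBijective _ hbij).symm, ?_⟩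
  intro u v huv
  rw [SimpleGraph.map_adj] at huv
  obtain ⟨x, y, hxy, rfl, rfl⟩ := huv
  obtain ⟨p, rfl⟩ := (Equiv.ofBijective _ hbij).surjective x
  obtain ⟨q, rfl⟩ := (Equiv.ofBijective _ hbij).surjective y
  rw [Equiv.coe_toEmbedding, Equiv.symm_apply_apply, Equiv.symm_apply_apply]
  rw [cay_adj (SI_sy _)] at hxy
  obtain ⟨i, hi, hxy⟩ := mem_SI.1 hxy
  rw [mem_singleton] at hi
  subst hi
  rw [Equiv.ofBijective_apply, Equiv.ofBijective_apply, mem_pr] at hxy
  have key : ∀ a b : Fin n, b.val • i.1 - a.val • i.1 = i.1 → (b - a).val = 1 := by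
    intro a b h
    rw [sub_eq_iff_eq_add] at h
    have h1 : (a.val + 1) • i.1 = b.val • i.1 := by
      rw [succ_nsmul, add_comm, h]
    have h2 : (a.val + 1) % n = b.val % n := by
      have := (nsmul_eq_nsmul_iff_modEq (x := i.1)).1 h1
      rw [hord] at this
      exact this
    have ha := a.2
    have hb := b.2
    rw [Nat.mod_eq_of_lt hb] at h2
    rw [Fin.sub_def]
    simp only
    rcases Nat.lt_or_ge (a.val + 1) n with h3 | h3
    · rw [Nat.mod_eq_of_lt h3] at h2
      have : n - a.val + b.val = n + 1 := by omega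
      rw [this, Nat.add_mod_left]
      exact Nat.mod_eq_of_lt (by omega)
    · have h4 : a.val + 1 = n := by omega
      rw [h4, Nat.mod_self] at h2
      have : n - a.val + b.val = 1 := by omega
      rw [this]
      exact Nat.mod_eq_of_lt (by omega)
  rw [SimpleGraph.cycleGraph_adj']
  rcases hxy with h | h
  · exact Or.inr (key p q h)
  · left
    refine key q p ?_
    rw [← neg_sub, h, neg_neg]

/-- the perfect matching of the differences `n / 2` -/
theorem match_le {n : ℕ} [NeZero n] (hn : 4 ≤ n) (j : Rp (ZMod n))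
    (hj : Nat.card (gn ({j} : Finset (Rp (ZMod n)))) = 2) :
    ∃ e : ZMod n ≃ Fin n, (cay (SI {j})).map e.toEmbedding ≤ SimpleGraph.cycleGraph n := by
  have hcard : Fintype.card (ZMod n) = n := ZMod.card n
  rw [gn_single, Nat.card_zmultiples] at hj
  obtain ⟨h, hh⟩ : 2 ∣ n := by
    rw [← hj]
    have := addOrderOf_dvd_card (x := j.1)
    rwa [hcard] at this
  have hh2 : 2 ≤ h := by omega
  have hj2 : j.1 + j.1 = 0 := by
    rw [← two_nsmul, ← hj]
    exact addOrderOf_nsmul_eq_zero _
  have hj0 : j.1 ≠ 0 := ((mem_Rp _).1 j.2).1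
  have hjv : j.1.val = h := by
    have h1 : (j.1.val + j.1.val) % n = 0 := by
      rw [← ZMod.val_add, hj2, ZMod.val_zero]
    have h2 := ZMod.val_lt j.1
    have h3 : j.1.val ≠ 0 := by
      intro h3
      exact hj0 ((ZMod.val_eq_zero _).1 h3)
    rcases Nat.lt_or_ge (j.1.val + j.1.val) n with h4 | h4
    · rw [Nat.mod_eq_of_lt h4] at h1
      omega
    · rw [Nat.mod_eq_sub_mod h4, Nat.mod_eq_of_lt (by omega)] at h1
      omega
  let f : ZMod n → Fin n := fun x =>
    if hx : x.val < h then ⟨2 * x.val, by omega⟩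
    else ⟨2 * (x.val - h) + 1, by have := ZMod.val_lt x; omega⟩
  have hf1 : ∀ x : ZMod n, x.val < h → (f x).val = 2 * x.val := by
    intro x hx
    change (if hx : x.val < h then (⟨2 * x.val, by omega⟩ : Fin n)
      else ⟨2 * (x.val - h) + 1, by have := ZMod.val_lt x; omega⟩).val = _
    rw [dif_pos hx]
  have hf2 : ∀ x : ZMod n, ¬ x.val < h → (f x).val = 2 * (x.val - h) + 1 := by
    intro x hx
    change (if hx : x.val < h then (⟨2 * x.val, by omega⟩ : Fin n)
      else ⟨2 * (x.val - h) + 1, by have := ZMod.val_lt x; omega⟩).val = _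
    rw [dif_neg hx]
  have hinj : Function.Injective f := by
    intro x y hxy
    have h1 : (f x).val = (f y).val := by rw [hxy]
    have hx := ZMod.val_lt x
    have hy := ZMod.val_lt y
    apply ZMod.val_injective n
    by_cases hx' : x.val < h <;> by_cases hy' : y.val < h
    · rw [hf1 x hx', hf1 y hy'] at h1
      omega
    · rw [hf1 x hx', hf2 y hy'] at h1
      omega
    · rw [hf2 x hx', hf1 y hy'] at h1
      omega
    · rw [hf2 x hx', hf2 y hy'] at h1
      omega
  have hbij : Function.Bijective f := by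
    rw [Fintype.bijective_iff_injective_and_card]
    exact ⟨hinj, by rw [hcard, Fintype.card_fin]⟩
  refine ⟨Equiv.ofBijective f hbij, ?_⟩
  intro u v huv
  rw [SimpleGraph.map_adj] at huv
  obtain ⟨x, y, hxy, rfl, rfl⟩ := huv
  rw [cay_adj (SI_sy _)] at hxy
  obtain ⟨i, hi, hxy2⟩ := mem_SI.1 hxy
  rw [mem_singleton] at hi
  subst hi
  have hneg : -i.1 = i.1 := neg_eq_of_add_eq_zero_left hj2
  have hxy' : y = i.1 + x := by
    rcases (mem_pr _ _).1 hxy2 with h1 | h1
    · rw [← h1, sub_add_cancel]
    · rw [hneg] at h1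
      rw [← h1, sub_add_cancel]
  have hv : y.val = (h + x.val) % n := by
    rw [hxy', ZMod.val_add, hjv]
  have hx := ZMod.val_lt x
  rw [SimpleGraph.cycleGraph_adj']
  change ((f x) - (f y)).val = 1 ∨ ((f y) - (f x)).val = 1
  by_cases hx' : x.val < h
  · rw [Nat.mod_eq_of_lt (by omega)] at hv
    have hy' : ¬ y.val < h := by omega
    right
    rw [Fin.sub_def]
    simp only
    rw [hf1 x hx', hf2 y hy', hv]
    have : n - 2 * x.val + (2 * (h + x.val - h) + 1) = n + 1 := by omega
    rw [this, Nat.add_mod_left]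
    exact Nat.mod_eq_of_lt (by omega)
  · rw [Nat.mod_eq_sub_mod (by omega), Nat.mod_eq_of_lt (by omega)] at hv
    have hy' : y.val < h := by omega
    left
    rw [Fin.sub_def]
    simp only
    rw [hf2 x hx', hf1 y hy', hv]
    have : n - 2 * (h + x.val - n) + (2 * (x.val - h) + 1) = n + 1 := by omega
    rw [this, Nat.add_mod_left]
    exact Nat.mod_eq_of_lt (by omega)

open Classical in
theorem core (n s : ℕ) (hn : 4 ≤ n) (hs : 4 ≤ s) (hsn : s ≤ n) (P : SimpleGraph (Fin n) → Prop)
    (hlow : ∀ G : SimpleGraph (Fin n), VT G → (∀ v, 3 ≤ (G.neighborSet v).ncard) →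
      (∀ v, s ≤ {w | G.Reachable v w}.ncard) →
      (∀ l, Even l → 4 ≤ l → l ≤ s → (SimpleGraph.cycleGraph l).IsContained G) → P G)
    (hcyc : ¬ P (SimpleGraph.cycleGraph n))
    (hsmall : (∀ G : SimpleGraph (Fin n), (∀ v, {w | G.Reachable v w}.ncard < s) → ¬ P G) ∨ s = 4 ∨
      2 ^ s ≤ n.totient)
    (hP : GP n (n.choose 2 - 1) P) : False := by
  have : NeZero n := ⟨by omega⟩
  have hcard : Fintype.card (ZMod n) = n := ZMod.card n
  have hrel := rel_circ (by omega) hP
  have e0 : ZMod n ≃ Fin n := (ZMod.finEquiv n).symm.toEquiv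
  have hno : ∀ j : Rp (ZMod n), (∃ e : ZMod n ≃ Fin n,
      (cay (SI {j})).map e.toEmbedding ≤ SimpleGraph.cycleGraph n) →
      ¬ PV P (ZMod n) (cay (SI {j})) := by
    rintro j ⟨e, he⟩ h
    rw [PV_iff hP e] at h
    exact hcyc (hP.mono _ _ he h)
  refine no_rel (A := ZMod n) (by omega) (fun I => PV P (ZMod n) (cay (SI I))) hrel s (by omega)
    (by omega) ?_ ?_ ?_
  · intro I h2 hI
    refine ⟨e0, ?_⟩
    set φ := SimpleGraph.Iso.map e0 (cay (SI I)) with hφ
    refine hlow _ ((cay_VT (SI_sy I)).map e0) ?_ ?_ ?_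
    · intro v
      have h3 := nbr_iso φ (φ.symm v)
      rw [φ.apply_symm_apply, deg_cay] at h3
      exact (card_SI_three I h2).trans h3.ge
    · intro v
      have h3 := reach_iso φ (φ.symm v)
      rw [φ.apply_symm_apply, reach_card] at h3
      exact hI.trans h3.ge
    · intro l hev h4 hl
      have h3 := even_cycles I.card I rfl h2 l hev h4 (hl.trans hI)
      exact h3.trans ⟨φ.toEmbedding.toCopy⟩
  · intro j hj
    exact hno j (cyc_le hn j hj)
  · rcases hsmall with h | rfl | h
    · refine bound1 _ s (by omega) hs ?_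
      rintro I hI ⟨e, he⟩
      refine h _ ?_ he
      intro v
      have h3 := reach_iso (SimpleGraph.Iso.map e (cay (SI I)))
        ((SimpleGraph.Iso.map e (cay (SI I))).symm v)
      rw [(SimpleGraph.Iso.map e (cay (SI I))).apply_symm_apply, reach_card] at h3
      exact lt_of_le_of_lt h3.le hI
    · refine bound3 _ (by omega) ?_
      intro j hj
      exact hno j (match_le hn j hj)
    · exact bound2 _ s (by omega) hs (by rw [hcard]; exact h)

end Pool.Agent.Q229.EvC
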