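import Mathlib

set_option autoImplicit false

/-!
# Partial sums of the Moebius function over the divisors of `n` are less than `φ(n) / 2`
-/

namespace Pool.Agent.Q229.EvC

open Finset

theorem two_pow_le_totient {m : ℕ} (hm : Odd m) : 2 ^ m.primeFactors.card ≤ m.totient := by
  rw [Nat.totient_eq_div_primeFactors_mul]
  have hm0 : 0 < m := hm.pos
  have h1 : 1 ≤ m / ∏ p ∈ m.primeFactors, p :=
    Nat.div_pos (Nat.le_of_dvd hm0 (Nat.prod_primeFactors_dvd m))
      (prod_pos fun p hp => (Nat.prime_of_mem_primeFactors hp).pos)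
  have h2 : 2 ^ m.primeFactors.card ≤ ∏ p ∈ m.primeFactors, (p - 1) := by
    rw [← prod_const]
    refine prod_le_prod' fun p hp => ?_
    have hp1 := Nat.prime_of_mem_primeFactors hp
    have hp2 := Nat.dvd_of_mem_primeFactors hp
    have hp3 : p ≠ 2 := by
      rintro rfl
      rw [← Nat.not_even_iff_odd] at hm
      exact hm (even_iff_two_dvd.2 hp2)
    have := hp1.two_le
    omega
  calc 2 ^ m.primeFactors.card ≤ ∏ p ∈ m.primeFactors, (p - 1) := h2
    _ = 1 * ∏ p ∈ m.primeFactors, (p - 1) := (one_mul _).symm
    _ ≤ _ := Nat.mul_le_mul_right _ h1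

theorem card_mob (m : ℕ) (hm : m ≠ 0) :
    (m.divisors.filter (fun d => ArithmeticFunction.moebius d ≠ 0)).card ≤
      2 ^ m.primeFactors.card := by
  rw [← card_powerset]
  refine card_le_card_of_injOn (fun d => d.primeFactors) ?_ ?_
  · intro d hd
    rw [mem_coe, mem_filter, Nat.mem_divisors] at hd
    exact mem_powerset.2 (Nat.primeFactors_mono hd.1.1 hm)
  · intro d hd e he hde
    rw [mem_coe, mem_filter, Nat.mem_divisors, ArithmeticFunction.moebius_ne_zero_iff_squarefree]
      at hd he
    have h1 : d.primeFactors = e.primeFactors := hde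
    rw [← Nat.prod_primeFactors_of_squarefree hd.2, ← Nat.prod_primeFactors_of_squarefree he.2, h1]

theorem sum_mob {m : ℕ} (hm : m ≠ 1) : ∑ d ∈ m.divisors, ArithmeticFunction.moebius d = 0 := by
  have h5 : ((ArithmeticFunction.moebius : ArithmeticFunction ℤ) *
      (ArithmeticFunction.zeta : ArithmeticFunction ℤ)) m = (1 : ArithmeticFunction ℤ) m := by
    rw [ArithmeticFunction.moebius_mul_coe_zeta]
  rw [ArithmeticFunction.coe_mul_zeta_apply, ArithmeticFunction.one_apply, if_neg hm] at h5
  exact h5

/-- a sum of values of the Moebius function -/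
theorem sum_eq (D : Finset ℕ) : ∑ d ∈ D, ArithmeticFunction.moebius d =
    ((D.filter (fun d => ArithmeticFunction.moebius d = 1)).card : ℤ) -
      ((D.filter (fun d => ArithmeticFunction.moebius d = -1)).card : ℤ) := by
  rw [card_filter, card_filter]
  push_cast
  rw [← sum_sub_distrib]
  refine sum_congr rfl fun d _ => ?_
  rcases ArithmeticFunction.moebius_eq_or d with h | h | h
  · rw [h]; norm_num
  · rw [h]; norm_num
  · rw [h]; norm_num

theorem two_mul_pos {m : ℕ} (hm : Odd m) (h1 : m ≠ 1) :
    2 * (m.divisors.filter (fun d => ArithmeticFunction.moebius d = 1)).card ≤ m.totient := by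
  have h2 := sum_mob h1
  rw [sum_eq] at h2
  have h3 := card_mob m hm.pos.ne'
  have h4 := two_pow_le_totient hm
  have h5 : (m.divisors.filter (fun d => ArithmeticFunction.moebius d ≠ 0)).card =
      (m.divisors.filter (fun d => ArithmeticFunction.moebius d = 1)).card +
      (m.divisors.filter (fun d => ArithmeticFunction.moebius d = -1)).card := by
    rw [← card_union_of_disjoint]
    · congr 1
      ext d
      rw [mem_union, mem_filter, mem_filter, mem_filter]
      rcases ArithmeticFunction.moebius_eq_or d with h | h | h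
      · rw [h]; norm_num
      · rw [h]; norm_num
      · rw [h]; norm_num
    · rw [disjoint_left]
      intro d hd hd'
      rw [mem_filter] at hd hd'
      rw [hd.2] at hd'
      exact absurd hd'.2 (by norm_num)
  omega

theorem small_odd {n s x : ℕ} (hn : 4 ≤ n) (hs : 4 ≤ s) (hodd : Odd n) (hx : n.totient ≤ 2 * x)
    (hx2 : 2 ≤ x) : ∑ d ∈ n.divisors.filter (fun d => d < s), ArithmeticFunction.moebius d < x := by
  have hn1 : n ≠ 1 := by omega
  have h1 := two_mul_pos hodd hn1
  rcases Nat.lt_or_ge n.minFac s with h | h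
  · rw [sum_eq]
    have h2 : ((n.divisors.filter (fun d => d < s)).filter
        (fun d => ArithmeticFunction.moebius d = 1)).card ≤
        (n.divisors.filter (fun d => ArithmeticFunction.moebius d = 1)).card := by
      refine card_le_card fun d hd => ?_
      rw [mem_filter, mem_filter] at hd
      exact mem_filter.2 ⟨hd.1.1, hd.2⟩
    have h3 : 0 < ((n.divisors.filter (fun d => d < s)).filter
        (fun d => ArithmeticFunction.moebius d = -1)).card := by
      rw [card_pos]
      refine ⟨n.minFac, ?_⟩
      rw [mem_filter, mem_filter, Nat.mem_divisors]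
      exact ⟨⟨⟨Nat.minFac_dvd n, by omega⟩, h⟩,
        ArithmeticFunction.moebius_apply_prime (Nat.minFac_prime hn1)⟩
    omega
  · have h2 : n.divisors.filter (fun d => d < s) = {1} := by
      ext d
      rw [mem_filter, Nat.mem_divisors, mem_singleton]
      constructor
      · rintro ⟨⟨h3, -⟩, h4⟩
        by_contra h5
        have h6 := Nat.minFac_le_of_dvd (n := n) (m := d) (by
          have : d ≠ 0 := by
            rintro rfl
            rw [zero_dvd_iff] at h3
            omega
          omega) h3
        omega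
      · rintro rfl
        exact ⟨⟨one_dvd _, by omega⟩, by omega⟩
    rw [h2, sum_singleton, ArithmeticFunction.moebius_apply_one]
    exact_mod_cast hx2

theorem small_even {n s x : ℕ} (hn : 4 ≤ n) (hs : 4 ≤ s) (hev : Even n) (hx : n.totient ≤ 2 * x)
    (hx1 : 1 ≤ x) : ∑ d ∈ n.divisors.filter (fun d => d < s), ArithmeticFunction.moebius d < x := by
  have hn0 : n ≠ 0 := by omega
  obtain ⟨v, m, hm, hnm⟩ := Nat.exists_eq_two_pow_mul_odd hn0
  have hv : 1 ≤ v := by
    by_contra hv
    have : v = 0 := by omega
    rw [this, pow_zero, one_mul] at hnm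
    rw [hnm, ← Nat.not_odd_iff_even] at hev
    exact hev hm
  have hmn : m ∣ n := ⟨2 ^ v, by rw [hnm, mul_comm]⟩
  have hodd_div : ∀ d, Odd d → d ∣ n → d ∣ m := by
    intro d hd hdn
    rw [hnm] at hdn
    exact (Nat.Coprime.pow_right v (Nat.coprime_two_right.2 hd)).dvd_of_dvd_mul_left hdn
  have hoddm : ∀ d, d ∣ m → Odd d := fun d hd => Odd.of_dvd_nat hm hd
  -- split by parity
  have h1 : ∑ d ∈ n.divisors.filter (fun d => d < s), ArithmeticFunction.moebius d =
      ∑ d ∈ m.divisors.filter (fun d => d < s), ArithmeticFunction.moebius d +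
        ∑ d ∈ m.divisors.filter (fun d => 2 * d < s), ArithmeticFunction.moebius (2 * d) := by
    rw [← sum_filter_add_sum_filter_not (n.divisors.filter (fun d => d < s)) (fun d => Odd d)]
    congr 1
    · refine sum_congr ?_ fun _ _ => rfl
      ext d
      rw [mem_filter, mem_filter, mem_filter, Nat.mem_divisors, Nat.mem_divisors]
      constructor
      · rintro ⟨⟨⟨h2, -⟩, h3⟩, h4⟩
        exact ⟨⟨hodd_div d h4 h2, hm.pos.ne'⟩, h3⟩
      · rintro ⟨⟨h2, -⟩, h3⟩
        exact ⟨⟨⟨h2.trans hmn, hn0⟩, h3⟩, hoddm d h2⟩
    · have h2 : ((m.divisors.filter (fun d => 2 * d < s)).image (fun d => 2 * d)) ⊆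
          (n.divisors.filter (fun d => d < s)).filter (fun d => ¬ Odd d) := by
        intro e he
        obtain ⟨d, hd, rfl⟩ := mem_image.1 he
        rw [mem_filter, Nat.mem_divisors] at hd
        rw [mem_filter, mem_filter, Nat.mem_divisors]
        refine ⟨⟨⟨?_, hn0⟩, hd.2⟩, ?_⟩
        · rw [hnm]
          exact mul_dvd_mul (dvd_pow_self 2 (by omega)) hd.1.1
        · rw [Nat.not_odd_iff_even]
          exact even_two_mul d
      rw [← sum_subset h2, sum_image]
      · intro a _ b _ hab
        have : 2 * a = 2 * b := hab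
        omega
      · intro e he hne
        apply ArithmeticFunction.moebius_eq_zero_of_not_squarefree
        intro hsq
        apply hne
        rw [mem_filter, mem_filter, Nat.mem_divisors, Nat.not_odd_iff_even] at he
        obtain ⟨d, hd⟩ := he.2
        have hd2 : e = 2 * d := by omega
        subst hd2
        refine mem_image.2 ⟨d, ?_, rfl⟩
        have hdodd : Odd d := by
          rw [← Nat.not_even_iff_odd]
          rintro ⟨w, hw⟩
          have : IsUnit (2 : ℕ) := hsq 2 ⟨w, by omega⟩
          rw [Nat.isUnit_iff] at this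
          omega
        rw [mem_filter, Nat.mem_divisors]
        exact ⟨⟨hodd_div d hdodd ((dvd_mul_left d 2).trans he.1.1.1), hm.pos.ne'⟩, he.1.2⟩
  have h2 : ∑ d ∈ m.divisors.filter (fun d => 2 * d < s), ArithmeticFunction.moebius (2 * d) =
      -∑ d ∈ m.divisors.filter (fun d => 2 * d < s), ArithmeticFunction.moebius d := by
    rw [← sum_neg_distrib]
    refine sum_congr rfl fun d hd => ?_
    rw [mem_filter, Nat.mem_divisors] at hd
    rw [ArithmeticFunction.isMultiplicative_moebius.map_mul_of_coprime
      (Nat.coprime_two_left.2 (hoddm d hd.1.1)), ArithmeticFunction.moebius_apply_prime Nat.prime_two,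
      neg_one_mul]
  have h3 : ∑ d ∈ m.divisors.filter (fun d => d < s), ArithmeticFunction.moebius d =
      ∑ d ∈ m.divisors.filter (fun d => 2 * d < s), ArithmeticFunction.moebius d +
        ∑ d ∈ m.divisors.filter (fun d => d < s ∧ ¬ 2 * d < s), ArithmeticFunction.moebius d := by
    rw [← sum_filter_add_sum_filter_not (m.divisors.filter (fun d => d < s)) (fun d => 2 * d < s),
      filter_filter, filter_filter]
    congr 1
    refine sum_congr ?_ fun _ _ => rfl
    ext d
    rw [mem_filter, mem_filter]
    constructor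
    · rintro ⟨h4, -, h5⟩
      exact ⟨h4, h5⟩
    · rintro ⟨h4, h5⟩
      exact ⟨h4, by omega, h5⟩
  rw [h1, h2, h3, add_assoc, add_comm, add_assoc, neg_add_cancel, add_zero, sum_eq]
  have h4 : ((m.divisors.filter (fun d => d < s ∧ ¬ 2 * d < s)).filter
      (fun d => ArithmeticFunction.moebius d = 1)).card + 1 ≤
      (m.divisors.filter (fun d => ArithmeticFunction.moebius d = 1)).card := by
    have h5 : insert 1 ((m.divisors.filter (fun d => d < s ∧ ¬ 2 * d < s)).filter
        (fun d => ArithmeticFunction.moebius d = 1)) ⊆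
        m.divisors.filter (fun d => ArithmeticFunction.moebius d = 1) := by
      intro d hd
      rcases mem_insert.1 hd with rfl | hd
      · rw [mem_filter, Nat.mem_divisors]
        exact ⟨⟨one_dvd _, hm.pos.ne'⟩, ArithmeticFunction.moebius_apply_one⟩
      · rw [mem_filter, mem_filter] at hd
        exact mem_filter.2 ⟨hd.1.1, hd.2⟩
    have h6 := card_le_card h5
    rw [card_insert_of_notMem] at h6
    · exact h6
    · intro h7
      rw [mem_filter, mem_filter] at h7
      omega
  by_cases hm1 : m = 1
  · have h5 : (m.divisors.filter (fun d => ArithmeticFunction.moebius d = 1)).card ≤ 1 := by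
      rw [hm1, Nat.divisors_one]
      exact (card_filter_le _ _).trans (by simp)
    omega
  · have h5 := two_mul_pos hm hm1
    have h6 : m.totient ≤ n.totient :=
      Nat.le_of_dvd (Nat.totient_pos.2 (by omega)) (Nat.totient_dvd_of_dvd hmn)
    omega

end Pool.Agent.Q229.EvC
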