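import Mathlib

set_option autoImplicit false

/-!
# Disjoint copies in vertex-transitive graphs
-/

namespace Pool.Agent.Q229.EvC

open Finset

open Classical in
/-- A non-empty family `F` of `l`-element sets which is invariant under a transitive group of
permutations of `V` contains at least `|V| / l ^ 2` pairwise disjoint sets. -/
theorem packing {V : Type} [Fintype V] (l : ℕ) (F : Finset (Finset V))
    (hF : F.Nonempty) (hl : ∀ S ∈ F, S.card = l)
    (htr : ∀ u v : V, ∃ φ : Equiv.Perm V, φ u = v ∧ ∀ S ∈ F, S.map φ.toEmbedding ∈ F)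
    (hl0 : 0 < l) :
    ∃ M : Finset (Finset V), M ⊆ F ∧ (M : Set (Finset V)).PairwiseDisjoint id ∧
      Fintype.card V ≤ M.card * l ^ 2 := by
  obtain ⟨S0, hS0⟩ := hF
  have hS0c := hl S0 hS0
  obtain ⟨v0, hv0⟩ : S0.Nonempty := by
    rw [← card_pos]
    omega
  set c : V → ℕ := fun v => (F.filter fun S => v ∈ S).card with hc
  have hle : ∀ u v, c u ≤ c v := by
    intro u v
    obtain ⟨φ, hφ, hφF⟩ := htr u v
    refine card_le_card_of_injOn (fun S => S.map φ.toEmbedding) ?_ ?_
    · intro S hS
      rw [mem_coe, mem_filter] at hS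
      rw [mem_coe, mem_filter]
      exact ⟨hφF S hS.1, mem_map.2 ⟨u, hS.2, hφ⟩⟩
    · intro S _ T _ hST
      exact map_injective φ.toEmbedding hST
  have hceq : ∀ v, c v = c v0 := fun v => le_antisymm (hle _ _) (hle _ _)
  have hcpos : 0 < c v0 := card_pos.2 ⟨S0, mem_filter.2 ⟨hS0, hv0⟩⟩
  -- double counting
  have hdc : Fintype.card V * c v0 = F.card * l := by
    have h1 : ∑ v : V, c v = ∑ S ∈ F, S.card := by
      have h2 : ∀ v : V, c v = ∑ S ∈ F, if v ∈ S then 1 else 0 := by
        intro v
        rw [hc]
        simp only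
        rw [card_filter]
      rw [sum_congr rfl fun v _ => h2 v, sum_comm]
      refine sum_congr rfl fun S _ => ?_
      rw [← card_filter]
      congr 1
      ext v
      simp
    rw [sum_congr rfl fun v _ => hceq v, sum_const, card_univ, smul_eq_mul,
      sum_congr rfl hl, sum_const, smul_eq_mul] at h1
    exact h1
  -- a maximal disjoint subfamily
  obtain ⟨M, hM, hmax⟩ : ∃ M ∈ (F.powerset.filter fun M : Finset (Finset V) =>
      (M : Set (Finset V)).PairwiseDisjoint id), ∀ M' ∈ (F.powerset.filter fun M : Finset (Finset V) =>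
      (M : Set (Finset V)).PairwiseDisjoint id), M'.card ≤ M.card := by
    apply exists_max_image
    exact ⟨∅, mem_filter.2 ⟨empty_mem_powerset _, by simp⟩⟩
  rw [mem_filter, mem_powerset] at hM
  refine ⟨M, hM.1, hM.2, ?_⟩
  have hcov : F ⊆ M.biUnion fun T => T.biUnion fun v => F.filter fun S => v ∈ S := by
    intro S hS
    rw [mem_biUnion]
    by_contra hcon
    push Not at hcon
    have hdis : ∀ T ∈ M, Disjoint S T := by
      intro T hT
      rw [disjoint_left]
      intro v hvS hvT
      exact hcon T hT (mem_biUnion.2 ⟨v, hvT, mem_filter.2 ⟨hS, hvS⟩⟩)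
    have hSM : S ∉ M := by
      intro h
      have h1 := hdis S h
      rw [disjoint_self] at h1
      have h2 := hl S hS
      rw [h1] at h2
      simp at h2
      omega
    have h1 := hmax (insert S M) (mem_filter.2 ⟨mem_powerset.2 (insert_subset hS hM.1), by
      rw [coe_insert]
      refine hM.2.insert fun T hT _ => ?_
      exact hdis T hT⟩)
    rw [card_insert_of_notMem hSM] at h1
    omega
  have hcard : F.card ≤ M.card * (l * c v0) := by
    refine (card_le_card hcov).trans (card_biUnion_le.trans ?_)
    rw [← smul_eq_mul, ← sum_const]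
    refine sum_le_sum fun T hT => ?_
    refine card_biUnion_le.trans ?_
    rw [sum_congr rfl fun v _ => hceq v, sum_const, smul_eq_mul, hl T (hM.1 hT)]
  have h5 : Fintype.card V * c v0 ≤ (M.card * l ^ 2) * c v0 := by
    rw [hdc]
    calc F.card * l ≤ M.card * (l * c v0) * l := Nat.mul_le_mul_right _ hcard
      _ = _ := by ring
  exact Nat.le_of_mul_le_mul_right h5 hcpos

end Pool.Agent.Q229.EvC
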