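import Pool.Agent.Q229.EvC.Cay
import Pool.Agent.Q229.EvC.Num

set_option autoImplicit false
set_option linter.unusedSectionVars false

/-!
# The signed number of the circulant graphs without the property
-/

namespace Pool.Agent.Q229.EvC

open Finset
open Pool.Agent.W332.Kd (cay Sy cay_adj Rp pr mem_pr mem_Rp pr_sy pr_disj cover_pr part_pr cay_mono)
open Pool.Agent.Q6.KV

noncomputable section

open Classical

section

variable {A : Type} [AddCommGroup A] [Fintype A] [DecidableEq A]

/-- the pairs of generators -/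
def Un (A : Type) [AddCommGroup A] [Fintype A] [DecidableEq A] : Finset (Rp A) :=
  univ.filter fun j => gn ({j} : Finset (Rp A)) = ⊤

theorem mem_Un {j : Rp A} : j ∈ Un A ↔ gn ({j} : Finset (Rp A)) = ⊤ := by simp [Un]

theorem totient_le [IsAddCyclic A] (h2 : 2 ≤ Fintype.card A) :
    (Fintype.card A).totient ≤ 2 * (Un A).card := by
  have h1 : (univ.filter fun a : A => addOrderOf a = Fintype.card A).card =
      (Fintype.card A).totient := IsAddCyclic.card_addOrderOf_eq_totient dvd_rfl
  rw [← h1]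
  have h3 : (univ.filter fun a : A => addOrderOf a = Fintype.card A) ⊆
      (Un A).biUnion fun j => pr j.1 := by
    intro a ha
    rw [mem_filter] at ha
    have ha0 : a ≠ 0 := by
      rintro rfl
      rw [addOrderOf_zero] at ha
      omega
    obtain ⟨j, hj⟩ := cover_pr a ha0
    rw [mem_biUnion]
    refine ⟨j, mem_Un.2 (gen_pair (x := a) ?_ hj), hj⟩
    have h4 : AddSubgroup.zmultiples a = ⊤ := by
      apply AddSubgroup.eq_top_of_card_eq
      rw [Nat.card_zmultiples, ha.2, Nat.card_eq_fintype_card]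
    intro y
    rw [h4]
    exact AddSubgroup.mem_top y
  refine (card_le_card h3).trans (card_biUnion_le.trans ?_)
  rw [mul_comm, ← smul_eq_mul, ← sum_const]
  refine sum_le_sum fun j _ => ?_
  unfold pr
  exact (card_insert_le _ _).trans (by simp)

theorem gn_empty : gn (∅ : Finset (Rp A)) = ⊥ := by
  rw [eq_bot_iff, gn_le]
  intro j hj
  exact absurd hj (notMem_empty _)

theorem card_gn_empty : Nat.card (gn (∅ : Finset (Rp A))) = 1 := by
  rw [gn_empty, AddSubgroup.card_bot]

/-- the sets of pairs without the property that generate a small subgroup -/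
def Sm (Q : Finset (Rp A) → Prop) (s : ℕ) : Finset (Finset (Rp A)) :=
  univ.filter fun I => ¬ Q I ∧ Nat.card (gn I) < s

theorem no_rel (h2A : 2 ≤ Fintype.card A) (Q : Finset (Rp A) → Prop)
    (hrel : ∑ I : Finset (Rp A), (-1 : ℤ) ^ I.card * (if Q I then 1 else 0) = 0) (s : ℕ)
    (hs : 2 ≤ s) (hsn : s ≤ Fintype.card A)
    (h2 : ∀ I : Finset (Rp A), 2 ≤ I.card → s ≤ Nat.card (gn I) → Q I)
    (h1 : ∀ j : Rp A, gn ({j} : Finset (Rp A)) = ⊤ → ¬ Q {j})
    (hX : ∑ I ∈ Sm Q s, (-1 : ℤ) ^ I.card < ((Un A).card : ℤ)) : False := by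
  obtain ⟨x, hx⟩ : ∃ x : A, x ≠ 0 := by
    by_contra hcon
    push Not at hcon
    have : Fintype.card A ≤ 1 := Fintype.card_le_one_iff.2 fun a b => by rw [hcon a, hcon b]
    omega
  obtain ⟨j0, -⟩ := cover_pr x hx
  have h0 : ∑ I : Finset (Rp A), (-1 : ℤ) ^ I.card = 0 := by
    rw [← Finset.powerset_univ]
    exact sum_powerset_neg_one_pow_card_of_nonempty ⟨j0, mem_univ _⟩
  have h3 : ∑ I ∈ univ.filter (fun I : Finset (Rp A) => ¬ Q I), (-1 : ℤ) ^ I.card = 0 := by
    rw [← sum_filter_add_sum_filter_not univ (fun I : Finset (Rp A) => Q I)] at h0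
    have h4 : ∑ I ∈ univ.filter (fun I : Finset (Rp A) => Q I), (-1 : ℤ) ^ I.card = 0 := by
      rw [← hrel, sum_filter]
      refine sum_congr rfl fun I _ => ?_
      split_ifs <;> simp
    rw [h4, zero_add] at h0
    exact h0
  rw [← sum_filter_add_sum_filter_not (univ.filter (fun I : Finset (Rp A) => ¬ Q I))
    (fun I => Nat.card (gn I) < s), filter_filter, filter_filter] at h3
  have h5 : ∀ I ∈ univ.filter (fun I : Finset (Rp A) => ¬ Q I ∧ ¬ Nat.card (gn I) < s),
      (-1 : ℤ) ^ I.card = -1 := by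
    intro I hI
    obtain ⟨-, h6, h7⟩ := mem_filter.1 hI
    have h8 : ¬ 2 ≤ I.card := fun h => h6 (h2 I h (by omega))
    have h9 : I.card ≠ 0 := by
      intro h
      rw [card_eq_zero] at h
      subst h
      rw [card_gn_empty] at h7
      omega
    have : I.card = 1 := by omega
    rw [this, pow_one]
  rw [sum_congr rfl h5, sum_const, nsmul_eq_mul, mul_neg_one] at h3
  have h6 : (Un A).card ≤
      (univ.filter (fun I : Finset (Rp A) => ¬ Q I ∧ ¬ Nat.card (gn I) < s)).card := by
    refine card_le_card_of_injOn (fun j => {j}) ?_ ?_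
    · intro j hj
      rw [mem_coe, mem_Un] at hj
      rw [mem_coe, mem_filter]
      refine ⟨mem_univ _, h1 j hj, ?_⟩
      change ¬ Nat.card (gn ({j} : Finset (Rp A))) < s
      rw [hj, AddSubgroup.card_top, Nat.card_eq_fintype_card]
      omega
    · intro i _ j _ h
      exact singleton_injective h
  have h7 : ∑ I ∈ Sm Q s, (-1 : ℤ) ^ I.card =
      ∑ I ∈ univ.filter (fun I : Finset (Rp A) => ¬ Q I ∧ Nat.card (gn I) < s),
        (-1 : ℤ) ^ I.card := rfl
  rw [h7] at hX
  have h8 : ((Un A).card : ℤ) ≤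
    ((univ.filter (fun I : Finset (Rp A) => ¬ Q I ∧ ¬ Nat.card (gn I) < s)).card : ℤ) := by
    exact_mod_cast h6
  linarith

/-- all small sets -/
theorem sum_all [IsAddCyclic A] (s : ℕ) :
    ∑ I ∈ univ.filter (fun I : Finset (Rp A) => Nat.card (gn I) < s), (-1 : ℤ) ^ I.card =
      ∑ d ∈ (Fintype.card A).divisors.filter (fun d => d < s), ArithmeticFunction.moebius d := by
  have hpos : Fintype.card A ≠ 0 := (Fintype.card_pos_iff.2 ⟨(0 : A)⟩).ne'
  rw [← Finset.sum_fiberwise_of_maps_to (s := univ.filter (fun I : Finset (Rp A) => Nat.card (gn I) < s))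
    (t := univ.filter (fun K : AddSubgroup A => Nat.card K < s)) (g := gn)]
  · refine sum_bij' (fun K _ => Nat.card K) (fun d _ => ks A d) ?_ ?_ ?_ ?_ ?_
    · intro K hK
      rw [mem_filter, Nat.mem_divisors]
      refine ⟨⟨?_, hpos⟩, (mem_filter.1 hK).2⟩
      rw [← Nat.card_eq_fintype_card]
      exact AddSubgroup.card_addSubgroup_dvd_card K
    · intro d hd
      rw [mem_filter, Nat.mem_divisors] at hd
      rw [mem_filter, card_ks, Nat.gcd_eq_right (by rw [Nat.card_eq_fintype_card]; exact hd.1.1)]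
      exact ⟨mem_univ _, hd.2⟩
    · intro K _
      exact (eq_ks K).symm
    · intro d hd
      rw [mem_filter, Nat.mem_divisors] at hd
      rw [card_ks, Nat.gcd_eq_right (by rw [Nat.card_eq_fintype_card]; exact hd.1.1)]
    · intro K hK
      rw [← g_zero _ K le_rfl]
      unfold g
      refine sum_congr ?_ fun _ _ => rfl
      ext I
      simp only [mem_filter, mem_univ, true_and]
      constructor
      · rintro ⟨-, h⟩
        exact ⟨h, Nat.zero_le _⟩
      · rintro ⟨h, -⟩
        rw [h]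
        exact ⟨(mem_filter.1 hK).2, rfl⟩
  · intro I hI
    exact mem_filter.2 ⟨mem_univ _, (mem_filter.1 hI).2⟩

theorem Un_pos [IsAddCyclic A] (h2 : 2 ≤ Fintype.card A) : 1 ≤ (Un A).card := by
  have h1 := totient_le h2
  have h3 : 0 < (Fintype.card A).totient := Nat.totient_pos.2 (by omega)
  omega

theorem Un_two [IsAddCyclic A] (h5 : 5 ≤ Fintype.card A) (hodd : Odd (Fintype.card A)) :
    2 ≤ (Un A).card := by
  have h1 := totient_le (A := A) (by omega)
  generalize Fintype.card A = n at *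
  have h3 : 3 ≤ n.totient := by
    rw [Nat.totient_eq_card_coprime]
    have h4 : ({1, 2, n - 1} : Finset ℕ) ⊆ (range n).filter fun a => n.Coprime a := by
      intro x hx
      rw [mem_insert, mem_insert, mem_singleton] at hx
      rw [mem_filter, mem_range]
      rcases hx with rfl | rfl | rfl
      · exact ⟨by omega, Nat.coprime_one_right _⟩
      · exact ⟨by omega, Nat.coprime_two_right.2 hodd⟩
      · refine ⟨by omega, ?_⟩
        have h6 : Nat.Coprime (n - 1 + 1) (n - 1) := by
          rw [Nat.coprime_self_add_left]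
          exact Nat.coprime_one_left _
        rwa [Nat.sub_add_cancel (by omega)] at h6
    have h5' := card_le_card h4
    rw [card_eq_three.2 ⟨1, 2, n - 1, by norm_num, by omega, by omega, rfl⟩] at h5'
    exact h5'
  omega

theorem bound1 [IsAddCyclic A] (Q : Finset (Rp A) → Prop) (s : ℕ) (hn : 4 ≤ Fintype.card A)
    (hs : 4 ≤ s) (h : ∀ I : Finset (Rp A), Nat.card (gn I) < s → ¬ Q I) :
    ∑ I ∈ Sm Q s, (-1 : ℤ) ^ I.card < ((Un A).card : ℤ) := by
  have h1 : Sm Q s = univ.filter (fun I : Finset (Rp A) => Nat.card (gn I) < s) := by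
    ext I
    simp only [Sm, mem_filter, mem_univ, true_and]
    exact ⟨fun h2 => h2.2, fun h2 => ⟨h I h2, h2⟩⟩
  rw [h1, sum_all]
  rcases Nat.even_or_odd (Fintype.card A) with hev | hodd
  · exact small_even hn hs hev (totient_le (by omega)) (Un_pos (by omega))
  · refine small_odd hn hs hodd (totient_le (by omega)) (Un_two ?_ hodd)
    obtain ⟨w, hw⟩ := hodd
    omega

theorem card_pk_le (K : AddSubgroup A) : (pk K).card + 1 ≤ Nat.card K := by
  rw [← hf_card]
  have h1 : insert 0 ((pk K).image fun j => j.1) ⊆ hf K := by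
    intro x hx
    rcases mem_insert.1 hx with rfl | hx
    · exact mem_hf.2 K.zero_mem
    · obtain ⟨j, hj, rfl⟩ := mem_image.1 hx
      exact mem_hf.2 (mem_pk.1 hj)
  have h2 := card_le_card h1
  rw [card_insert_of_notMem, card_image_of_injective _ Subtype.val_injective] at h2
  · exact h2
  · intro h
    obtain ⟨j, -, hj⟩ := mem_image.1 h
    exact ((mem_Rp _).1 j.2).1 hj

theorem bound2 [IsAddCyclic A] (Q : Finset (Rp A) → Prop) (s : ℕ) (hn : 4 ≤ Fintype.card A)
    (hs : 4 ≤ s) (h : 2 ^ s ≤ (Fintype.card A).totient) :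
    ∑ I ∈ Sm Q s, (-1 : ℤ) ^ I.card < ((Un A).card : ℤ) := by
  have h1 : ∑ I ∈ Sm Q s, (-1 : ℤ) ^ I.card ≤ ((Sm Q s).card : ℤ) := by
    rw [card_eq_sum_ones]
    push_cast
    refine sum_le_sum fun I _ => ?_
    rcases neg_one_pow_eq_or ℤ I.card with h2 | h2 <;> rw [h2] <;> norm_num
  have h2 : (Sm Q s).card ≤ ∑ K ∈ univ.filter (fun K : AddSubgroup A => Nat.card K < s),
      2 ^ (Nat.card K - 1) := by
    have h3 : Sm Q s ⊆ (univ.filter (fun K : AddSubgroup A => Nat.card K < s)).biUnion
        fun K => (pk K).powerset := by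
      intro I hI
      rw [Sm, mem_filter] at hI
      rw [mem_biUnion]
      refine ⟨gn I, mem_filter.2 ⟨mem_univ _, hI.2.2⟩, mem_powerset.2 ?_⟩
      rw [← gn_le']
    refine (card_le_card h3).trans (card_biUnion_le.trans (sum_le_sum fun K _ => ?_))
    rw [card_powerset]
    refine Nat.pow_le_pow_right (by norm_num) ?_
    have := card_pk_le K
    omega
  have h4 : ∑ K ∈ univ.filter (fun K : AddSubgroup A => Nat.card K < s), 2 ^ (Nat.card K - 1) ≤
      ∑ d ∈ range (s - 1), 2 ^ d := by
    have h5 : ∑ K ∈ univ.filter (fun K : AddSubgroup A => Nat.card K < s), 2 ^ (Nat.card K - 1) =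
        ∑ d ∈ (univ.filter (fun K : AddSubgroup A => Nat.card K < s)).image
          (fun K : AddSubgroup A => Nat.card K - 1), 2 ^ d := by
      rw [sum_image]
      intro K hK K' hK' hKK
      have h6 : 0 < Nat.card K := Nat.card_pos
      have h7 : 0 < Nat.card K' := Nat.card_pos
      have h8 : Nat.card K - 1 = Nat.card K' - 1 := hKK
      exact card_inj (by omega)
    rw [h5]
    refine sum_le_sum_of_subset ?_
    intro d hd
    obtain ⟨K, hK, rfl⟩ := mem_image.1 hd
    rw [mem_filter] at hK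
    rw [mem_range]
    have h6 : 0 < Nat.card K := Nat.card_pos
    omega
  have h6 : ∑ d ∈ range (s - 1), 2 ^ d < 2 ^ (s - 1) := by
    have := Nat.geomSum_lt (m := 2) (n := s - 1) (s := range (s - 1)) le_rfl
      (fun k hk => mem_range.1 hk)
    exact this
  have h7 := totient_le (A := A) (by omega)
  have h8 : 2 ^ s = 2 * 2 ^ (s - 1) := by
    rw [← pow_succ']
    congr 1
    omega
  have h9 : (Sm Q s).card < (Un A).card := by omega
  have h10 : ((Sm Q s).card : ℤ) < ((Un A).card : ℤ) := by exact_mod_cast h9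
  linarith

theorem bound3 [IsAddCyclic A] (Q : Finset (Rp A) → Prop) (hn : 4 ≤ Fintype.card A)
    (h : ∀ j : Rp A, Nat.card (gn ({j} : Finset (Rp A))) = 2 → ¬ Q {j}) :
    ∑ I ∈ Sm Q 4, (-1 : ℤ) ^ I.card < ((Un A).card : ℤ) := by
  have hone : ∀ I ∈ Sm Q 4, I ≠ ∅ → I.card = 1 := by
    intro I hI hne
    rw [Sm, mem_filter] at hI
    by_contra hcon
    have h2 : 2 ≤ I.card := by
      have := card_pos.2 (nonempty_iff_ne_empty.2 hne)
      omega
    have h3 := card_SI_three I h2
    have h4 : insert 0 (SI I) ⊆ hf (gn I) := by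
      intro x hx
      rw [mem_hf]
      rcases mem_insert.1 hx with rfl | hx
      · exact (gn I).zero_mem
      · exact AddSubgroup.subset_closure (mem_coe.2 hx)
    have h5 := card_le_card h4
    rw [card_insert_of_notMem (SI_sy I).zero, hf_card] at h5
    omega
  have hle : ∀ S : Finset (Finset (Rp A)), (∀ I ∈ S, I ≠ ∅ → I.card = 1) →
      ∑ I ∈ S.erase ∅, (-1 : ℤ) ^ I.card = -((S.erase ∅).card : ℤ) := by
    intro S hS
    rw [sum_congr rfl (g := fun _ => (-1 : ℤ)), sum_const, nsmul_eq_mul, mul_neg_one]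
    intro I hI
    rw [hS I (mem_of_mem_erase hI) (ne_of_mem_erase hI), pow_one]
  have h1 : ∑ I ∈ Sm Q 4, (-1 : ℤ) ^ I.card ≤ 1 - (((Sm Q 4).erase ∅).card : ℤ) := by
    by_cases he : ∅ ∈ Sm Q 4
    · rw [← add_sum_erase _ _ he, hle _ hone, card_empty, pow_zero]
      linarith
    · rw [← erase_eq_of_notMem he, hle _ hone, erase_idem]
      linarith
  rcases Nat.even_or_odd (Fintype.card A) with hev | hodd
  · obtain ⟨y, hy⟩ : ∃ y : A, addOrderOf y = 2 := by
      have h2 : 0 < (univ.filter fun a : A => addOrderOf a = 2).card := by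
        rw [IsAddCyclic.card_addOrderOf_eq_totient (even_iff_two_dvd.1 hev)]
        exact Nat.totient_pos.2 (by norm_num)
      obtain ⟨y, hy⟩ := card_pos.1 h2
      exact ⟨y, (mem_filter.1 hy).2⟩
    have hy0 : y ≠ 0 := by
      rintro rfl
      rw [addOrderOf_zero] at hy
      omega
    obtain ⟨j, hj⟩ := cover_pr y hy0
    have h2 : Nat.card (gn ({j} : Finset (Rp A))) = 2 := by
      rw [gn_single, Nat.card_zmultiples]
      rcases (mem_pr _ _).1 hj with h3 | h3
      · rw [← h3, hy]
      · rw [← addOrderOf_neg, ← h3, hy]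
    have h3 : ({j} : Finset (Rp A)) ∈ (Sm Q 4).erase ∅ := by
      rw [mem_erase, Sm, mem_filter]
      exact ⟨singleton_ne_empty j, mem_univ _, h j h2, by omega⟩
    have h4 : 0 < ((Sm Q 4).erase ∅).card := card_pos.2 ⟨_, h3⟩
    have h5 := Un_pos (A := A) (by omega)
    have h6 : (1 : ℤ) ≤ (((Sm Q 4).erase ∅).card : ℤ) := by exact_mod_cast h4
    have h7 : (1 : ℤ) ≤ ((Un A).card : ℤ) := by exact_mod_cast h5
    linarith
  · have h5 : 2 ≤ (Un A).card := Un_two (by obtain ⟨w, hw⟩ := hodd; omega) hodd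
    have h6 : (0 : ℤ) ≤ (((Sm Q 4).erase ∅).card : ℤ) := by positivity
    have h7 : (2 : ℤ) ≤ ((Un A).card : ℤ) := by exact_mod_cast h5
    linarith

end

end

end Pool.Agent.Q229.EvC
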